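import Pool.Agent.Helper78_NDM.Stmts

/-!
# NDM module GMS
-/

set_option autoImplicit false
set_option linter.unusedVariables false
set_option linter.unusedSectionVars false

namespace Pool.Agent.NDM.H32

open PowerSeries Finset Pool.Agent.Helper6_Mono Pool.Agent.Helper32_OMP

section

variable {k : Type} [Field k] {σ ι : Type} [Fintype σ] {S : Type} [CommRing S] [Algebra k S]

theorem lf_scal (a : σ → k) (lam : S) (x : σ → S) : lf a (fun l => lam * x l) = lam * lf a x := by
  unfold lf
  rw [Finset.mul_sum]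
  refine Finset.sum_congr rfl fun l _ => ?_
  rw [mul_smul_comm]

/-- the multiple `λ s` -/
@[reducible] def scal {L : ι → σ → k} {F G : Finset ι} {i₀ : ι} (θ : QZ) (lam : S)
    (hlam : IsUnit lam) (s : (PS L F G i₀).obj S) : (SS L F G θ).obj S :=
  ⟨fun l => lam * s.1.1 l, fun i hi => by
    rw [lf_scal]
    refine ⟨fun h => ?_, fun h => hlam.mul ((s.1.2 i hi).2 h)⟩
    rw [(s.1.2 i hi).1 h, mul_zero]⟩

theorem scal_inj {L : ι → σ → k} {F G : Finset ι} {i₀ : ι} {θ : QZ} {lam lam' : S}
    {hlam : IsUnit lam} {hlam' : IsUnit lam'} {s s' : (PS L F G i₀).obj S}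
    (h : scal θ lam hlam s = scal θ lam' hlam' s') : lam = lam' ∧ s = s' := by
  have h1 : (fun l => lam * s.1.1 l) = fun l => lam' * s'.1.1 l := congrArg Subtype.val h
  have h2 : lam = lam' := by
    have h3 := congrArg (lf (L i₀)) h1
    rw [lf_scal, lf_scal] at h3
    have e1 : lf (L i₀) s.1.1 = 1 := s.2
    have e2 : lf (L i₀) s'.1.1 = 1 := s'.2
    rwa [e1, e2, mul_one, mul_one] at h3
  subst h2
  refine ⟨rfl, Subtype.ext (Subtype.ext (funext fun l => ?_))⟩
  exact hlam.mul_left_cancel (congrFun h1 l)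

theorem scal_surj {L : ι → σ → k} {F G : Finset ι} {i₀ : ι} {θ : QZ} (h1 : i₀ ∈ F) (h2 : i₀ ∉ G)
    (x : (SS L F G θ).obj S) : ∃ (lam : S) (hlam : IsUnit lam) (s : (PS L F G i₀).obj S),
      scal θ lam hlam s = x := by
  have hu : IsUnit (lf (L i₀) x.1) := (x.2 i₀ h1).2 h2
  obtain ⟨v, hv⟩ := hu.exists_left_inv
  have hvu : IsUnit v := IsUnit.of_mul_eq_one _ hv
  refine ⟨lf (L i₀) x.1, hu, ⟨⟨fun l => v * x.1 l, fun i hi => ?_⟩, ?_⟩, ?_⟩
  · rw [lf_scal]
    refine ⟨fun h => ?_, fun h => hvu.mul ((x.2 i hi).2 h)⟩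
    rw [(x.2 i hi).1 h, mul_zero]
  · show lf (L i₀) (fun l => v * x.1 l) = 1
    rw [lf_scal, hv]
  · refine Subtype.ext (funext fun l => ?_)
    show lf (L i₀) x.1 * (v * x.1 l) = x.1 l
    rw [← mul_assoc, mul_comm _ v, hv, one_mul]

variable [DecidableEq ι]

theorem gS_scal {L : ι → σ → k} (m : ι → ℕ) {F G : Finset ι} {i₀ : ι} (θ : QZ) (lam : S)
    (hlam : IsUnit lam) (s : (PS L F G i₀).obj S) :
    (gS L m F G θ).fn (scal θ lam hlam s) = lam ^ (∑ i ∈ F \ G, m i) * (gP L m F G i₀).fn s := by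
  show ∏ i ∈ F \ G, lf (L i) (fun l => lam * s.1.1 l) ^ m i
    = lam ^ (∑ i ∈ F \ G, m i) * ∏ i ∈ F \ G, lf (L i) s.1.1 ^ m i
  rw [← Finset.prod_pow_eq_pow_sum, ← Finset.prod_mul_distrib]
  refine Finset.prod_congr rfl fun i _ => ?_
  rw [lf_scal, mul_pow]

end

theorem unit_of_eq {S : Type} [CommRing S] {a b lam : S} {d : ℕ} (hd : 0 < d)
    (h : a * (lam ^ d * b) = 1) : IsUnit lam := by
  have h1 : IsUnit (lam ^ d) := IsUnit.of_mul_eq_one (a * b) (by rw [← h]; ring)
  exact (isUnit_pow_iff hd.ne').1 h1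

theorem prodU {S : Type} [CommRing S] (f : Unit → S) : ∏ i : Unit, f i = f () := by simp

theorem TT_congr {k : Type} [Field k] {β : Type} {wβ : β → QZ} {R : Type 1} [CommRing R] {L0 : Rˣ}
    (χ : SInv k wβ L0) (Y : Over k QZ β wβ) {wh : QZ} (h : NF Y.F wh) {n n' : ℕ} {w w' : QZ}
    (hn : n = n') (hw : w = w') (h1 : wh + ∑ i : Unit, n • w = 0)
    (h2 : wh + ∑ i : Unit, n' • w' = 0) :
    χ.χ (TT Y h (fun _ : Unit => n) (fun _ => w) h1)
      = χ.χ (TT Y h (fun _ : Unit => n') (fun _ => w') h2) := by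
  subst hn hw
  rfl

/-- module GMS -/
theorem gms (hT : TorStmt) : GmsStmt := by
  intro k _ σ ι _ _ β wβ R _ L0 χ L m F G i₀ hGF hi₀ hi₀' hm Y hY wu u θ
  set d := ∑ i ∈ F \ G, m i with hd
  have hdpos : 0 < d := Finset.sum_pos' (fun i _ => Nat.zero_le _)
    ⟨i₀, Finset.mem_sdiff.2 ⟨hi₀, hi₀'⟩, hm⟩
  refine ⟨fun P hP g e w he h h' => ?_, fun h => ?_⟩
  · have hw : (wu + 0) + ∑ b : Bool, (bif b then d else e) • (bif b then θ else w) = 0 := by
      rw [Fintype.sum_bool, add_zero]
      show wu + (d • θ + e • w) = 0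
      rw [← add_assoc]
      exact h
    have hiso : OIso (TT (Y.times ((PS L F G i₀).prod P)) (ug Y u (gg (gP L m F G i₀) g))
        (fun b : Bool => bif b then d else e) (fun b => bif b then θ else w) hw)
        (EE (Y.times (SS L F G θ)) (ug Y u (gS L m F G θ)) P g e w h) := by
      have hpr : ∀ {S : Type} [CommRing S] (z : Bool → S),
          ∏ b : Bool, z b ^ (bif b then d else e) = z true ^ d * z false ^ e := by
        intro S _ z
        rw [Fintype.prod_bool]
        rfl
      have hun : ∀ {S : Type} [CommRing S] [Algebra k S]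
          (x : (TT (Y.times ((PS L F G i₀).prod P)) (ug Y u (gg (gP L m F G i₀) g))
            (fun b : Bool => bif b then d else e) (fun b => bif b then θ else w) hw).F.obj S),
          IsUnit (x.1.2 true) := by
        intro S _ _ x
        have h1 : u.fn x.1.1.1 * ((gP L m F G i₀).fn x.1.1.2.1 * g.fn x.1.1.2.2)
          * ∏ b : Bool, x.1.2 b ^ (bif b then d else e) = 1 := x.2
        rw [hpr] at h1
        exact unit_of_eq hdpos h1
      have heq : ∀ {S : Type} [CommRing S] [Algebra k S] (y : Y.F.obj S)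
          (s : (PS L F G i₀).obj S) (p : P.obj S) (lam : S) (hlam : IsUnit lam) (x : S),
          u.fn y * ((gP L m F G i₀).fn s * g.fn p) * (lam ^ d * x ^ e)
            = (u.fn y * (gS L m F G θ).fn (scal θ lam hlam s)) * g.fn p * x ^ e := by
        intro S _ _ y s p lam hlam x
        rw [gS_scal]
        ring
      refine OIso.ofBij (fun S _ _ x => ⟨(((x.1.1.1, scal θ (x.1.2 true) (hun x) x.1.1.2.1),
          x.1.1.2.2), fun _ => x.1.2 false), ?_⟩) ?_ ?_ ?_
      · show (u.fn x.1.1.1 * (gS L m F G θ).fn (scal θ (x.1.2 true) (hun x) x.1.1.2.1))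
          * g.fn x.1.1.2.2 * ∏ i : Unit, x.1.2 false ^ e = 1
        have h1 : u.fn x.1.1.1 * ((gP L m F G i₀).fn x.1.1.2.1 * g.fn x.1.1.2.2)
          * ∏ b : Bool, x.1.2 b ^ (bif b then d else e) = 1 := x.2
        rw [prodU (fun _ => x.1.2 false ^ e), ← heq, ← hpr]
        exact h1
      · intro S S' _ _ _ _ φ c x
        refine Subtype.ext (Prod.ext (Prod.ext (Prod.ext rfl (Subtype.ext (funext fun l => ?_)))
          rfl) rfl)
        show (chr c θ * φ (x.1.2 true)) * (chr c 0 * φ (x.1.1.2.1.1.1 l))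
          = chr c θ * φ (x.1.2 true * x.1.1.2.1.1.1 l)
        rw [chr_zero, one_mul, map_mul, mul_assoc]
      · intro S _ _
        constructor
        · intro x x' hxx
          have h1 := congrArg Subtype.val hxx
          have h2 : x.1.1.1 = x'.1.1.1 := congrArg (fun q => q.1.1.1) h1
          have h3 := scal_inj (hlam := hun x) (hlam' := hun x') (congrArg (fun q => q.1.1.2) h1)
          have h4 : x.1.1.2.2 = x'.1.1.2.2 := congrArg (fun q => q.1.2) h1
          have h5 : x.1.2 false = x'.1.2 false := congrFun (congrArg (fun q => q.2) h1) ()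
          refine Subtype.ext (Prod.ext (Prod.ext h2 (Prod.ext h3.2 h4)) (funext fun b => ?_))
          cases b
          · exact h5
          · exact h3.1
        · rintro ⟨⟨⟨⟨y, s⟩, p⟩, x⟩, hx⟩
          obtain ⟨lam, hlam, s', rfl⟩ := scal_surj hi₀ hi₀' s
          refine ⟨⟨((y, (s', p)), fun b => bif b then lam else x ()), ?_⟩, ?_⟩
          · show u.fn y * ((gP L m F G i₀).fn s' * g.fn p)
              * ∏ b : Bool, (bif b then lam else x ()) ^ (bif b then d else e) = 1
            have h1 : u.fn y * (gS L m F G θ).fn (scal θ lam hlam s')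
              * g.fn p * ∏ i : Unit, x i ^ e = 1 := hx
            rw [prodU (fun i => x i ^ e)] at h1
            rw [hpr fun b : Bool => bif b then lam else x (), ← h1]
            exact heq y s' p lam hlam (x ())
          · exact Subtype.ext (Prod.ext rfl (funext fun b => rfl))
      · intro S _ _ x b
        rfl
    have hFT1 : FT (Y.times ((PS L F G i₀).prod P)).F := hY.prod ((FT_PS L F G i₀).prod hP)
    rw [← χ.iso (FT_TT hFT1 _ _ _ _) hiso, hT k β wβ R L0 χ _ hFT1 _ _ Bool _ (fun b => by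
      cases b
      · exact he
      · exact hdpos) _ hw, Fintype.card_bool, pow_one]
    congr 1
    have hg : gcdI (fun b : Bool => bif b then d else e) = Nat.gcd d e := by
      unfold gcdI
      rw [show (Finset.univ : Finset Bool) = {true, false} from rfl, Finset.gcd_insert,
        Finset.gcd_singleton]
      simp
      rfl
    refine TT_congr χ _ _ hg ?_ _ _
    rw [Fintype.sum_bool, hg]
    rfl
  · have hiso : OIso (EE Y u (PS L F G i₀) (gP L m F G i₀) d θ h)
        (ONE (Y.times (SS L F G θ)) (ug Y u (gS L m F G θ)) h) := by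
      have hun : ∀ {S : Type} [CommRing S] [Algebra k S]
          (x : (EE Y u (PS L F G i₀) (gP L m F G i₀) d θ h).F.obj S), IsUnit (x.1.2 ()) := by
        intro S _ _ x
        have h1 : u.fn x.1.1.1 * (gP L m F G i₀).fn x.1.1.2 * ∏ i : Unit, x.1.2 i ^ d = 1 := x.2
        rw [prodU (fun i => x.1.2 i ^ d), ← mul_one (x.1.2 () ^ d)] at h1
        exact unit_of_eq hdpos h1
      have heq : ∀ {S : Type} [CommRing S] [Algebra k S] (y : Y.F.obj S)
          (s : (PS L F G i₀).obj S) (lam : S) (hlam : IsUnit lam),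
          u.fn y * (gP L m F G i₀).fn s * lam ^ d
            = u.fn y * (gS L m F G θ).fn (scal θ lam hlam s) := by
        intro S _ _ y s lam hlam
        rw [gS_scal]
        ring
      refine OIso.ofBij (fun S _ _ x => ⟨(x.1.1.1, scal θ (x.1.2 ()) (hun x) x.1.1.2), ?_⟩)
        ?_ ?_ ?_
      · show u.fn x.1.1.1 * (gS L m F G θ).fn (scal θ (x.1.2 ()) (hun x) x.1.1.2) = 1
        rw [← heq]
        have h1 : u.fn x.1.1.1 * (gP L m F G i₀).fn x.1.1.2 * ∏ i : Unit, x.1.2 i ^ d = 1 := x.2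
        rw [prodU (fun i => x.1.2 i ^ d)] at h1
        exact h1
      · intro S S' _ _ _ _ φ c x
        refine Subtype.ext (Prod.ext rfl (Subtype.ext (funext fun l => ?_)))
        show (chr c θ * φ (x.1.2 ())) * (chr c 0 * φ (x.1.1.2.1.1 l))
          = chr c θ * φ (x.1.2 () * x.1.1.2.1.1 l)
        rw [chr_zero, one_mul, map_mul, mul_assoc]
      · intro S _ _
        constructor
        · intro x x' hxx
          have h1 := congrArg Subtype.val hxx
          have h2 : x.1.1.1 = x'.1.1.1 := congrArg (fun q => q.1) h1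
          have h3 := scal_inj (hlam := hun x) (hlam' := hun x') (congrArg (fun q => q.2) h1)
          exact Subtype.ext (Prod.ext (Prod.ext h2 h3.2) (funext fun b => h3.1))
        · rintro ⟨⟨y, s⟩, hx⟩
          obtain ⟨lam, hlam, s', rfl⟩ := scal_surj hi₀ hi₀' s
          refine ⟨⟨((y, s'), fun _ => lam), ?_⟩, rfl⟩
          show u.fn y * (gP L m F G i₀).fn s' * ∏ i : Unit, lam ^ d = 1
          rw [prodU (fun _ => lam ^ d), heq y s' lam hlam]
          exact hx
      · intro S _ _ x b
        rfl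
    exact (χ.iso (FT_EE hY u (FT_PS L F G i₀) _ _ _ h) hiso).symm

end Pool.Agent.NDM.H32
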