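import Pool.Agent.Helper78_NDM.Stmts

/-!
# NDM: multiplication of the equation by a unit
-/

set_option autoImplicit false

namespace Pool.Agent.NDM.H32

open PowerSeries Finset Pool.Agent.Helper6_Mono Pool.Agent.Helper32_OMP

theorem isT_iff {S : Type} [CommRing S] (M : ℕ) (q : S⟦X⟧) :
    IsT M q ↔ (X : S⟦X⟧) ^ (M + 1) ∣ q - X ^ M := by
  rw [X_pow_dvd_iff]
  constructor
  · intro h j hj
    rw [map_sub, h j (Nat.lt_succ_iff.1 hj), coeff_X_pow, sub_self]
  · intro h j hj
    have := h j (Nat.lt_succ_iff.2 hj)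
    rw [map_sub, coeff_X_pow] at this
    exact sub_eq_zero.1 this

theorem isT_aux {S : Type} [CommRing S] (M : ℕ) {W q : S⟦X⟧} (hW : (X : S⟦X⟧) ∣ W - 1)
    (h : IsT M q) : IsT M (W * q) := by
  rw [isT_iff] at h ⊢
  have h1 : W * q - X ^ M = W * (q - X ^ M) + (W - 1) * X ^ M := by ring
  rw [h1]
  refine dvd_add (Dvd.dvd.mul_left h W) ?_
  obtain ⟨V, hV⟩ := hW
  rw [hV]
  exact ⟨V, by ring⟩

/-- the equation depends on the constant coefficient of the unit factor only -/
theorem isT_unit {S : Type} [CommRing S] (M : ℕ) (U r : S⟦X⟧) (c : S) (hc : coeff 0 U = c)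
    (hU : IsUnit c) : IsT M (U * r) ↔ IsT M (C c * r) := by
  have hX : (X : S⟦X⟧) ∣ U - C c := by
    rw [X_dvd_iff, map_sub, ← coeff_zero_eq_constantCoeff_apply, hc,
      ← coeff_zero_eq_constantCoeff_apply, coeff_zero_C, sub_self]
  have hUu : IsUnit U := by
    rw [PowerSeries.isUnit_iff_constantCoeff, ← coeff_zero_eq_constantCoeff_apply, hc]
    exact hU
  obtain ⟨U', hU'⟩ := hUu.exists_left_inv
  obtain ⟨c', hc'⟩ := hU.exists_left_inv
  obtain ⟨V, hV⟩ := hX
  have hCc : (C c' : S⟦X⟧) * C c = 1 := by rw [← map_mul, hc', map_one]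
  constructor
  · intro h
    have h1 : IsT M ((C c * U') * (U * r)) := by
      refine isT_aux M ⟨-(U' * V), ?_⟩ h
      have : C c = U - X * V := by rw [← hV]; ring
      rw [this, sub_mul, mul_comm U U', hU']
      ring
    have h2 : (C c * U') * (U * r) = C c * r := by
      calc (C c * U') * (U * r) = C c * (U' * U) * r := by ring
        _ = C c * r := by rw [hU', mul_one]
    rwa [h2] at h1
  · intro h
    have h1 : IsT M ((U * C c') * (C c * r)) := by
      refine isT_aux M ⟨C c' * V, ?_⟩ h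
      have : U = C c + X * V := by rw [← hV]; ring
      rw [this, add_mul, mul_comm (C c) (C c'), hCc]
      ring
    have h2 : (U * C c') * (C c * r) = U * r := by
      calc (U * C c') * (C c * r) = U * (C c' * C c) * r := by ring
        _ = U * r := by rw [hCc, mul_one]
    rwa [h2] at h1

end Pool.Agent.NDM.H32
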