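import Pool.Agent.Helper78_NDM.Stmts

/-!
# NDM module RTS
-/

set_option autoImplicit false

open Finset Pool.Agent.Helper6_Mono

namespace Pool.Agent.NDM.H32

/-- module RTS -/
theorem rts (hG : GptStmt) (hB : BchStmt) (nd : ND.NdStmt) : RtsStmt := by
  intro k _ _ σ ι _ _ a ha m hm c hc z F W hz hW hcl hconn
  classical
  obtain ⟨z', hz'⟩ := hG k σ ι a ha z F W hz hcl
  have : Nonempty W := ⟨⟨hW.choose, hW.choose_spec⟩⟩
  have hinj := (algebraMap k ℂ).injective
  have hlp : ∀ i, ND.lp (MvPolynomial.map (algebraMap k ℂ) (a i))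
      = fun l => algebraMap k ℂ (lpk (a i) l) := by
    intro i
    funext l
    simp [ND.lp, lpk, MvPolynomial.coeff_map]
  have hev : ∀ p : MvPolynomial σ k, MvPolynomial.eval z'
      (MvPolynomial.map (algebraMap k ℂ) p) = MvPolynomial.aeval z' p := by
    intro p
    rw [MvPolynomial.eval_map]
    rfl
  have h := nd σ W (fun i => MvPolynomial.map (algebraMap k ℂ) (a i.1))
    (fun i => by
      unfold MvPolynomial.totalDegree
      rw [MvPolynomial.support_map_of_injective _ hinj]
      exact ha i.1) (fun i => m i.1)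
    (fun i => hm i.1) z'
    (fun i => by
      rw [hev]
      exact (hz' i.1).2 i.2)
    (MvPolynomial.map (algebraMap k ℂ) (MvPolynomial.C c * ∏ i ∈ univ \ W, a i ^ m i)) ?_ ?_
  · have e1 : (∏ i : W, (MvPolynomial.map (algebraMap k ℂ) (a i.1)) ^ m i.1)
        * MvPolynomial.map (algebraMap k ℂ) (MvPolynomial.C c * ∏ i ∈ univ \ W, a i ^ m i)
        = MvPolynomial.map (algebraMap k ℂ) (MvPolynomial.C c * ∏ i, a i ^ m i) := by
      rw [← Finset.prod_sdiff (subset_univ W) (f := fun i => a i ^ m i),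
        Finset.prod_coe_sort W (fun i => (MvPolynomial.map (algebraMap k ℂ) (a i)) ^ m i)]
      simp only [map_mul, map_prod, map_pow]
      ring
    have e2 : Module.finrank ℂ (Submodule.span ℂ
        (Set.range fun i : W => ND.lp (MvPolynomial.map (algebraMap k ℂ) (a i.1))))
        = rk (fun i => lpk (a i)) W := by
      have e3 : (Set.range fun i : W => ND.lp (MvPolynomial.map (algebraMap k ℂ) (a i.1)))
          = (fun (i : ι) (l : σ) => algebraMap k ℂ (lpk (a i) l)) '' (W : Set ι) := by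
        ext x
        constructor
        · rintro ⟨i, rfl⟩
          exact ⟨i.1, i.2, (hlp i.1).symm⟩
        · rintro ⟨i, hi, rfl⟩
          exact ⟨⟨i, hi⟩, hlp i⟩
      rw [e3]
      exact (hB k σ ι (fun i => lpk (a i)) W W).1
    rw [e1, e2] at h
    convert h using 3
    rw [Finset.sum_coe_sort W (fun i => m i)]
  · rw [hev, map_mul, MvPolynomial.aeval_C, map_prod]
    refine mul_ne_zero ((map_ne_zero _).mpr hc) (Finset.prod_ne_zero_iff.mpr fun i hi => ?_)
    rw [map_pow]
    exact pow_ne_zero _ fun h0 => (Finset.mem_sdiff.mp hi).2 ((hz' i).1 h0)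
  · intro S hS hS'
    have h1 := hconn (univ.filter fun i => ∃ h : i ∈ W, (⟨i, h⟩ : W) ∈ S)
      (univ.filter fun i => ∃ h : i ∈ W, (⟨i, h⟩ : W) ∉ S) ?_ ?_ ?_ ?_
    · have key : ∀ U : Set W,
          ((fun i : W => ND.lp (MvPolynomial.map (algebraMap k ℂ) (a i.1))) '' U)
          = (fun (i : ι) (l : σ) => algebraMap k ℂ (lpk (a i) l)) ''
            ((univ.filter fun i => ∃ h : i ∈ W, (⟨i, h⟩ : W) ∈ U : Finset ι) : Set ι) := by
        intro U
        ext x
        constructor
        · rintro ⟨i, hi, rfl⟩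
          refine ⟨i.1, ?_, (hlp i.1).symm⟩
          simp only [Finset.coe_filter, Finset.mem_univ, true_and, Set.mem_ofPred_eq]
          exact ⟨i.2, hi⟩
        · rintro ⟨i, hi, rfl⟩
          simp only [Finset.coe_filter, Finset.mem_univ, true_and, Set.mem_ofPred_eq] at hi
          obtain ⟨hi1, hi2⟩ := hi
          exact ⟨⟨i, hi1⟩, hi2, hlp i⟩
      rw [key S, key Sᶜ]
      intro hd
      exact h1 ((hB k σ ι (fun i => lpk (a i)) _ _).2 (by convert hd using 10))
    · obtain ⟨i, hi⟩ := hS
      exact ⟨i.1, by simpa using hi⟩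
    · obtain ⟨i, hi⟩ := hS'
      exact ⟨i.1, by simpa using hi⟩
    · rw [Finset.disjoint_left]
      simp only [Finset.mem_filter, Finset.mem_univ, true_and]
      rintro i ⟨h, h1⟩ ⟨h', h2⟩
      exact h2 h1
    · intro i
      simp only [Finset.mem_filter, Finset.mem_univ, true_and]
      constructor
      · intro h
        by_cases h' : (⟨i, h⟩ : W) ∈ S
        · exact Or.inl ⟨h, h'⟩
        · exact Or.inr ⟨h, h'⟩
      · rintro (⟨h, -⟩ | ⟨h, -⟩) <;> exact h

end Pool.Agent.NDM.H32
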