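import Pool.Agent.Helper32_NDM.Lemu

/-!
# NDM module STS
-/

set_option autoImplicit false
set_option linter.unusedVariables false
set_option linter.unusedSectionVars false

namespace Pool.Agent.NDM.H32

open PowerSeries Finset Pool.Agent.Helper6_Mono Pool.Agent.Helper32_OMP

section

variable {k : Type} [Field k] {σ ι : Type} [Fintype σ]

theorem lf_C_add {S : Type} [CommRing S] [Algebra k S] (a : σ → k) (s : σ → S) (z : σ → S⟦X⟧) :
    lf a (fun l => C (s l) + z l) = C (lf a s) + lf a z := by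
  unfold lf
  rw [map_sum, ← Finset.sum_add_distrib]
  refine Finset.sum_congr rfl fun l _ => ?_
  rw [smul_add, Algebra.smul_def, Algebra.smul_def (a l) (s l), map_mul,
    PowerSeries.algebraMap_apply]

theorem coeff0_lf' {S : Type} [CommRing S] [Algebra k S] (a : σ → k) (M : ℕ) (ω θ : QZ)
    (z : (serGF k (Dj σ M) (fun _ => θ) ω).obj S) : coeff 0 (lf a z.1) = 0 := by
  rw [coeff_lf]
  unfold lf
  refine Finset.sum_eq_zero fun l _ => ?_
  show a l • coeff 0 (z.1 l) = 0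
  rw [z.2 l 0 (fun h => by
    have := h.1
    simp only at this
    omega), smul_zero]

variable {β : Type} {wβ : β → QZ} [DecidableEq ι]

/-- the values of the forms at the constant terms -/
@[reducible] noncomputable def f0 (L : ι → σ → k) (m : ι → ℕ) (F : Finset ι)
    (M : ℕ) (ω θ : QZ) (Y : Over k QZ β wβ) {wu : QZ} (u : NF Y.F wu)
    (h : wu + (∑ i ∈ F, m i) • θ + M • ω = 0) (i : ι) : NF (JZ L m F M ω θ Y u h).F θ :=
  ⟨fun x => lf (L i) (fun l => coeff 0 (x.1.2.1 l)), fun {S S'} _ _ _ _ φ c x => by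
    have h1 : (fun l => coeff 0 (C (chr c θ) * twS ω φ c (x.1.2.1 l)))
        = fun l => chr c θ * φ (coeff 0 (x.1.2.1 l)) := by
      funext l
      rw [coeff_C_mul, coeff_twS, zero_smul, chr_zero, one_mul]
    show lf (L i) (fun l => coeff 0 (C (chr c θ) * twS ω φ c (x.1.2.1 l))) = _
    rw [h1, lf_tw0]⟩

/-- the strata -/
theorem sts_iso (L : ι → σ → k) (m : ι → ℕ) (F G : Finset ι) (hG : G ⊆ F)
    (M : ℕ) (ω θ : QZ) (Y : Over k QZ β wβ) {wu : QZ} (u : NF Y.F wu)
    (h : wu + (∑ i ∈ F, m i) • θ + M • ω = 0) :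
    OIso (JJ L m G M ω θ (Y.times (SS L F G θ)) (ug Y u (gS L m F G θ)) (hstr hG m h))
      ((JZ L m F M ω θ Y u h).tor (f0 L m F M ω θ Y u h) F (F \ G)) := by
  have hkey : ∀ {S : Type} [CommRing S] [Algebra k S] (y : Y.F.obj S) (s : (SS L F G θ).obj S)
      (z : (serGF k (Dj σ M) (fun _ : σ => θ) ω).obj S),
      IsT M (C (u.fn y) * pp L m F (fun l => C (s.1 l) + z.1 l)) ↔
      IsT M (C (u.fn y * (gS L m F G θ).fn s) * pp L m G z.1) := by
    intro S _ _ y s z
    have h0 : coeff 0 (∏ i ∈ F \ G, (C (lf (L i) s.1) + lf (L i) z.1) ^ m i)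
        = (gS L m F G θ).fn s := by
      rw [coeff_zero_eq_constantCoeff_apply, map_prod]
      refine Finset.prod_congr rfl fun i _ => ?_
      rw [map_pow, map_add, constantCoeff_C, ← coeff_zero_eq_constantCoeff_apply, coeff0_lf',
        add_zero]
    have hU : IsUnit ((gS L m F G θ).fn s) := by
      show IsUnit (∏ i ∈ F \ G, lf (L i) s.1 ^ m i)
      rw [IsUnit.prod_iff]
      intro i hi
      have := Finset.mem_sdiff.1 hi
      exact ((s.2 i this.1).2 this.2).pow _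
    have h1 : pp L m F (fun l => C (s.1 l) + z.1 l)
        = (∏ i ∈ F \ G, (C (lf (L i) s.1) + lf (L i) z.1) ^ m i) * pp L m G z.1 := by
      unfold pp
      rw [← Finset.prod_sdiff hG]
      congr 1
      · exact Finset.prod_congr rfl fun i _ => by rw [lf_C_add]
      · refine Finset.prod_congr rfl fun i hi => ?_
        rw [lf_C_add, (s.2 i (hG hi)).1 hi, map_zero, zero_add]
    have h2 := isT_unit M _ (C (u.fn y) * pp L m G z.1) _ h0 hU
    have e1 : C (u.fn y) * pp L m F (fun l => C (s.1 l) + z.1 l)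
        = (∏ i ∈ F \ G, (C (lf (L i) s.1) + lf (L i) z.1) ^ m i)
          * (C (u.fn y) * pp L m G z.1) := by
      rw [h1]
      ring
    have e2 : C (u.fn y * (gS L m F G θ).fn s) * pp L m G z.1
        = C ((gS L m F G θ).fn s) * (C (u.fn y) * pp L m G z.1) := by
      rw [map_mul C]
      ring
    rw [e1, e2]
    exact h2
  have hc0 : ∀ {S : Type} [CommRing S] [Algebra k S] (s : σ → S)
      (z : (serGF k (Dj σ M) (fun _ : σ => θ) ω).obj S) (l : σ),
      coeff 0 (C (s l) + z.1 l) = s l := by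
    intro S _ _ s z l
    rw [map_add, coeff_zero_C, z.2 l 0 (fun h => by
      have := h.1
      simp only at this
      omega), add_zero]
  refine OIso.mk'
    (fun S _ _ p => ⟨⟨(p.1.1.1, ⟨fun l => C (p.1.1.2.1 l) + p.1.2.1 l, ?_⟩), ?_⟩,
      fun i hi => ⟨fun hi' => ?_, fun hi' => ?_⟩⟩)
    (fun S _ _ q => ⟨((q.1.1.1, ⟨fun l => coeff 0 (q.1.1.2.1 l), fun i hi =>
      ⟨fun hi' => ?_, fun hi' => ?_⟩⟩), ⟨fun l => q.1.1.2.1 l - C (coeff 0 (q.1.1.2.1 l)), ?_⟩), ?_⟩)
    (fun S _ _ p => ?_) (fun S _ _ q => ?_) (fun φ c p => ?_) (fun S _ _ p b => rfl)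
  · intro l j hj
    have hj' : M < j := not_le.1 hj
    rw [map_add, coeff_C, if_neg (by omega), p.1.2.2 l j (fun h => by
      have := h.2
      simp only at this
      omega), add_zero]
  · exact (hkey p.1.1.1 p.1.1.2 p.1.2).2 p.2
  · show IsUnit (lf (L i) (fun l => coeff 0 (C (p.1.1.2.1 l) + p.1.2.1 l)))
    simp only [hc0]
    exact (p.1.1.2.2 i hi).2 (Finset.mem_sdiff.1 hi').2
  · show lf (L i) (fun l => coeff 0 (C (p.1.1.2.1 l) + p.1.2.1 l)) = 0
    simp only [hc0]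
    refine (p.1.1.2.2 i hi).1 ?_
    by_contra hn
    exact hi' (Finset.mem_sdiff.2 ⟨hi, hn⟩)
  · exact (q.2 i hi).2 fun h => (Finset.mem_sdiff.1 h).2 hi'
  · exact (q.2 i hi).1 (Finset.mem_sdiff.2 ⟨hi, hi'⟩)
  · intro l j hj
    rw [map_sub, coeff_C]
    by_cases h0 : j = 0
    · rw [if_pos h0, h0, sub_self]
    · have hj' : M < j := by
        by_contra h1
        exact hj ⟨Nat.one_le_iff_ne_zero.2 h0, not_lt.1 h1⟩
      rw [if_neg h0, q.1.1.2.2 l j (not_le.2 hj'), sub_zero]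
  · have e1 : (fun l => C (coeff 0 (q.1.1.2.1 l)) + (q.1.1.2.1 l - C (coeff 0 (q.1.1.2.1 l))))
        = q.1.1.2.1 := funext fun l => by ring
    refine (hkey q.1.1.1 _ ⟨fun l => q.1.1.2.1 l - C (coeff 0 (q.1.1.2.1 l)), ?_⟩).1 ?_
    show IsT M (C (u.fn q.1.1.1) * pp L m F (fun l => C (coeff 0 (q.1.1.2.1 l))
      + (q.1.1.2.1 l - C (coeff 0 (q.1.1.2.1 l)))))
    rw [e1]
    exact q.1.2
  · refine Subtype.ext (Prod.ext (Prod.ext rfl (Subtype.ext (funext fun l => hc0 _ _ l)))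
      (Subtype.ext (funext fun l => ?_)))
    show C (p.1.1.2.1 l) + p.1.2.1 l - C (coeff 0 (C (p.1.1.2.1 l) + p.1.2.1 l)) = p.1.2.1 l
    rw [hc0]
    ring
  · refine Subtype.ext (Subtype.ext (Prod.ext rfl (Subtype.ext (funext fun l => ?_))))
    show C (coeff 0 (q.1.1.2.1 l)) + (q.1.1.2.1 l - C (coeff 0 (q.1.1.2.1 l))) = q.1.1.2.1 l
    ring
  · refine Subtype.ext (Subtype.ext (Prod.ext rfl (Subtype.ext (funext fun l => ?_))))
    show C (chr c θ * φ (p.1.1.2.1 l)) + C (chr c θ) * twS ω φ c (p.1.2.1 l)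
      = C (chr c θ) * twS ω φ c (C (p.1.1.2.1 l) + p.1.2.1 l)
    rw [map_add, mul_add, twS_C, map_mul]

end

/-- module STS -/
theorem sts : StsStmt := by
  intro k _ σ ι _ _ β wβ R _ L0 χ L m F Y hY wu u M ω θ h
  have hFT := FT_JZ L m F M ω θ hY u h
  rw [χ.torus hFT (f0 L m F M ω θ Y u h) F]
  refine Finset.sum_nbij' (fun U => F \ U) (fun G => F \ G) ?_ ?_ ?_ ?_ ?_
  · intro U _
    exact Finset.mem_powerset.2 Finset.sdiff_subset
  · intro U _
    exact Finset.mem_powerset.2 Finset.sdiff_subset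
  · intro U hU
    exact Finset.sdiff_sdiff_eq_self (Finset.mem_powerset.1 hU)
  · intro U hU
    exact Finset.sdiff_sdiff_eq_self (Finset.mem_powerset.1 hU)
  · intro U hU
    rw [dif_pos Finset.sdiff_subset]
    have h1 := sts_iso L m F (F \ U) Finset.sdiff_subset M ω θ Y u h
    have h2 := (χ.iso (FT_JJ L m _ M ω θ (hY.prod (FT_SS L F _ θ)) _ _) h1).symm
    exact (congrArg (fun V => χ.χ ((JZ L m F M ω θ Y u h).tor (f0 L m F M ω θ Y u h) F V))
      (Finset.sdiff_sdiff_eq_self (Finset.mem_powerset.1 hU)).symm).trans h2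

end Pool.Agent.NDM.H32
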