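import Pool.Agent.Helper32_NDM.Lemu
import Pool.Agent.Helper93_OMP.Jy0

/-!
# NDM module TOP
-/

set_option autoImplicit false
set_option linter.unusedVariables false
set_option linter.unusedSectionVars false

namespace Pool.Agent.NDM.H32

open PowerSeries Finset Pool.Agent.Helper6_Mono Pool.Agent.Helper32_OMP

variable {k : Type} [Field k] {σ ι : Type} [Fintype σ]

theorem deg_one_k [DecidableEq σ] (P : MvPolynomial σ k) (hP : P.totalDegree ≤ 1) :
    P = MvPolynomial.C (MvPolynomial.coeff 0 P) +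
      ∑ l, MvPolynomial.C (lpk P l) * MvPolynomial.X l := by
  ext m
  rw [MvPolynomial.coeff_add, MvPolynomial.coeff_sum, MvPolynomial.coeff_C]
  simp only [MvPolynomial.coeff_C_mul, MvPolynomial.coeff_X]
  by_cases h0 : m = 0
  · subst h0
    rw [if_pos rfl, Finset.sum_eq_zero, add_zero]
    intro l _
    rw [if_neg, mul_zero]
    simp
  · rw [if_neg (fun h => h0 h.symm), zero_add]
    by_cases h1 : ∃ l, Finsupp.single l 1 = m
    · obtain ⟨l, rfl⟩ := h1
      rw [Finset.sum_eq_single l]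
      · rw [if_pos rfl, mul_one]
        rfl
      · intro l' _ hl'
        rw [if_neg, mul_zero]
        intro h
        exact hl' (Finsupp.single_left_injective one_ne_zero h)
      · intro h
        exact absurd (Finset.mem_univ l) h
    · push Not at h1
      rw [Finset.sum_eq_zero (fun l _ => by rw [if_neg (h1 l), mul_zero])]
      apply MvPolynomial.coeff_eq_zero_of_totalDegree_lt
      refine lt_of_le_of_lt hP ?_
      by_contra hle
      push Not at hle
      obtain ⟨l, hl⟩ : ∃ l, l ∈ m.support := by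
        by_contra hc
        push Not at hc
        apply h0
        ext l
        simpa using hc l
      have hml : 1 ≤ m l := Nat.one_le_iff_ne_zero.2 (Finsupp.mem_support_iff.1 hl)
      apply h1 l
      ext l'
      by_cases hll : l' = l
      · subst hll
        rw [Finsupp.single_eq_same]
        have := Finset.single_le_sum (f := fun i => m i) (fun i _ => Nat.zero_le _) hl
        omega
      · rw [Finsupp.single_apply, if_neg (fun h => hll h.symm)]
        by_contra hne
        have hl' : l' ∈ m.support := Finsupp.mem_support_iff.2 (fun h => hne h.symm)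
        have h2 : m l + m l' ≤ ∑ i ∈ m.support, m i := by
          rw [← Finset.sum_pair (fun h => hll h.symm)]
          apply Finset.sum_le_sum_of_subset
          intro x hx
          rw [Finset.mem_insert, Finset.mem_singleton] at hx
          rcases hx with rfl | rfl
          · exact hl
          · exact hl'
        have h3 : 1 ≤ m l' := Nat.one_le_iff_ne_zero.2 (fun h => hne h.symm)
        omega

theorem aeval_affine (P : MvPolynomial σ k) (hP : P.totalDegree ≤ 1) {S : Type} [CommRing S]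
    [Algebra k S] (y : σ → S) (z : σ → S⟦X⟧) :
    MvPolynomial.aeval (fun l => C (y l) + z l) P = C (MvPolynomial.aeval y P) + lf (lpk P) z := by
  classical
  conv_lhs => rw [deg_one_k P hP]
  have h1 : MvPolynomial.aeval y P = algebraMap k S (MvPolynomial.coeff 0 P) +
      ∑ l, algebraMap k S (lpk P l) * y l := by
    conv_lhs => rw [deg_one_k P hP]
    simp only [map_add, map_sum, map_mul, MvPolynomial.aeval_C, MvPolynomial.aeval_X]
  rw [h1]
  unfold lf
  simp only [map_add, map_sum, map_mul, MvPolynomial.aeval_C, MvPolynomial.aeval_X,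
    PowerSeries.algebraMap_apply, mul_add, Finset.sum_add_distrib, Algebra.smul_def]
  ring

/-- the product of the forms at a jet with given origin -/
theorem fser_affine [Fintype ι] [DecidableEq ι] (a : ι → MvPolynomial σ k)
    (ha : ∀ i, (a i).totalDegree = 1) (m : ι → ℕ) (c : k) (M : ℕ) (hM : M ≠ 0) (F : Finset ι)
    {S : Type} [CommRing S] [Algebra k S] (y : σ → S) (z : σ → S⟦X⟧)
    (hy : ∀ i ∈ F, MvPolynomial.aeval y (a i) = 0) :
    (lp0 a m c M hM).fser (fun l => C (y l) + z l)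
      = (C (algebraMap k S c) * ∏ i ∈ univ \ F, (C (MvPolynomial.aeval y (a i))
        + lf (lpk (a i)) z) ^ m i) * pp (fun i => lpk (a i)) m F z := by
  rw [H93.fser_lp0, map_mul, MvPolynomial.algHom_C, PowerSeries.algebraMap_apply, map_prod,
    ← Finset.prod_sdiff (subset_univ F), mul_assoc]
  congr 1
  congr 1
  · refine Finset.prod_congr rfl fun i _ => ?_
    rw [map_pow, aeval_affine (a i) (ha i).le]
  · refine Finset.prod_congr rfl fun i hi => ?_
    rw [map_pow, aeval_affine (a i) (ha i).le, hy i hi, map_zero, zero_add]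

theorem coeff0_lf {S : Type} [CommRing S] [Algebra k S] (a : σ → k) (M : ℕ) (ω θ : QZ)
    (z : (serGF k (Dj σ M) (fun _ => θ) ω).obj S) : coeff 0 (lf a z.1) = 0 := by
  rw [coeff_lf]
  unfold lf
  refine Finset.sum_eq_zero fun l _ => ?_
  show a l • coeff 0 (z.1 l) = 0
  rw [z.2 l 0 (fun h => by
    have := h.1
    simp only at this
    omega), smul_zero]

theorem coeff0_unit [Fintype ι] [DecidableEq ι] (a : ι → MvPolynomial σ k) (m : ι → ℕ) (c : k)
    (F : Finset ι) {S : Type} [CommRing S] [Algebra k S] (y : σ → S) (M : ℕ) (ω θ : QZ)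
    (z : (serGF k (Dj σ M) (fun _ => θ) ω).obj S) :
    coeff 0 (C (algebraMap k S c) * ∏ i ∈ univ \ F, (C (MvPolynomial.aeval y (a i))
        + lf (lpk (a i)) z.1) ^ m i)
      = algebraMap k S c * ∏ i ∈ univ \ F, MvPolynomial.aeval y (a i) ^ m i := by
  rw [coeff_zero_eq_constantCoeff_apply, map_mul, map_prod, constantCoeff_C]
  congr 1
  refine Finset.prod_congr rfl fun i _ => ?_
  rw [map_pow, map_add, constantCoeff_C, ← coeff_zero_eq_constantCoeff_apply, coeff0_lf, add_zero]

theorem isUnit_u0 [Fintype ι] [DecidableEq ι] (a : ι → MvPolynomial σ k) (m : ι → ℕ) (c : k)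
    (hc : c ≠ 0) (F : Finset ι) {S : Type} [CommRing S] [Algebra k S] (y : σ → S)
    (hy : ∀ i, i ∉ F → IsUnit (MvPolynomial.aeval y (a i))) :
    IsUnit (algebraMap k S c * ∏ i ∈ univ \ F, MvPolynomial.aeval y (a i) ^ m i) := by
  refine ((IsUnit.mk0 c hc).map (algebraMap k S)).mul ?_
  rw [IsUnit.prod_iff]
  intro i hi
  exact (hy i (Finset.mem_sdiff.1 hi).2).pow _

/-- the functions `a_i(γ(0))` -/
@[reducible] noncomputable def fv [Fintype ι] (a : ι → MvPolynomial σ k) (m : ι → ℕ) (c : k)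
    (M : ℕ) (hM : M ≠ 0) (i : ι) : NF ((lp0 a m c M hM).K.app (affY k σ (0 : QZ))).F 0 :=
  ⟨fun x => MvPolynomial.aeval x.1.1 (a i), fun {S S'} _ _ _ _ φ χ x =>
    aeval_tw (hom_zero (a i)) φ χ x.1.1⟩

/-- the strata of the jets -/
theorem top_iso [Fintype ι] [DecidableEq ι] (a : ι → MvPolynomial σ k)
    (ha : ∀ i, (a i).totalDegree = 1) (m : ι → ℕ) (c : k) (hc : c ≠ 0) (M : ℕ) (hM : M ≠ 0)
    (hω : M • om M = 0) (F : Finset ι) :
    OIso (((lp0 a m c M hM).K.app (affY k σ (0 : QZ))).tor (fv a m c M hM) univ Fᶜ)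
      (JJ (fun i => lpk (a i)) m F M (om M) 0 (ZZ a F) (uZ a m c F) (hZ0 _ M hω)) := by
  have hkey : ∀ {S : Type} [CommRing S] [Algebra k S] (y : σ → S)
      (z : (serGF k (Dj σ M) (fun _ : σ => (0 : QZ)) (om M)).obj S)
      (hy : ∀ i ∈ F, MvPolynomial.aeval y (a i) = 0)
      (hy' : ∀ i, i ∉ F → IsUnit (MvPolynomial.aeval y (a i))),
      (∀ j : Fin (M + 1), coeff (j : ℕ) ((lp0 a m c M hM).fser fun l => C (y l) + z.1 l)
        - (if (j : ℕ) = M then 1 else 0) = 0) ↔
      IsT M (C (algebraMap k S c * ∏ i ∈ univ \ F, MvPolynomial.aeval y (a i) ^ m i)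
        * pp (fun i => lpk (a i)) m F z.1) := by
    intro S _ _ y z hy hy'
    rw [← isT_unit M _ _ _ (coeff0_unit a m c F y M (om M) 0 z) (isUnit_u0 a m c hc F y hy'),
      ← fser_affine a ha m c M hM F y z.1 hy]
    constructor
    · intro h j hj
      exact sub_eq_zero.1 (h ⟨j, Nat.lt_succ_iff.2 hj⟩)
    · intro h j
      exact sub_eq_zero.2 (h j (Nat.lt_succ_iff.1 j.2))
  refine OIso.mk'
    (fun S _ _ p => ⟨(⟨p.1.1.1, fun i => ⟨fun hi => ?_, fun hi => ?_⟩⟩, p.1.1.2), ?_⟩)
    (fun S _ _ q => ⟨⟨(q.1.1.1, q.1.2), ?_⟩, fun i _ => ⟨fun hi => ?_, fun hi => ?_⟩⟩)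
    (fun S _ _ p => rfl) (fun S _ _ q => rfl) (fun φ c p => rfl) (fun S _ _ p b => ?_)
  · exact (p.2 i (mem_univ i)).2 (by simpa using hi)
  · exact (p.2 i (mem_univ i)).1 (by simpa using hi)
  · exact (hkey p.1.1.1 p.1.1.2 (fun i hi => (p.2 i (mem_univ i)).2 (by simpa using hi))
      (fun i hi => (p.2 i (mem_univ i)).1 (by simpa using hi))).1 p.1.2
  · exact (hkey q.1.1.1 q.1.2 (fun i hi => (q.1.1.2 i).1 hi) (fun i hi => (q.1.1.2 i).2 hi)).2 q.2
  · exact (q.1.1.2 i).2 (by simpa using hi)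
  · exact (q.1.1.2 i).1 (by simpa using hi)
  · show p.1.1.1 b = MvPolynomial.aeval _ (MvPolynomial.X b)
    rw [MvPolynomial.aeval_X]

/-- module TOP -/
theorem top (hJ : Jy0Stmt) : TopStmt := by
  intro k _ σ ι _ _ _ R _ L0 χ a ha m hm c hc M hM hω
  rw [hJ k σ ι R L0 χ a m c M hM hω,
    χ.torus ((lp0 a m c M hM).K.app_FT (FT.affY (0 : QZ))) (fv a m c M hM) univ,
    Finset.powerset_univ]
  have hbij : ∑ U : Finset ι, χ.χ (((lp0 a m c M hM).K.app (affY k σ (0 : QZ))).tor
      (fv a m c M hM) univ U)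
      = ∑ F : Finset ι, χ.χ (((lp0 a m c M hM).K.app (affY k σ (0 : QZ))).tor
      (fv a m c M hM) univ Fᶜ) :=
    (Equiv.sum_comp (Equiv.ofBijective (fun F : Finset ι => Fᶜ) compl_bijective) _).symm
  have hFT : ∀ F : Finset ι, FT (((lp0 a m c M hM).K.app (affY k σ (0 : QZ))).tor
      (fv a m c M hM) univ Fᶜ).F := fun F =>
    FT.tor ((lp0 a m c M hM).K.app_FT (FT.affY (0 : QZ))) _ _ _
  rw [hbij, ← Finset.sum_erase_add _ _ (mem_univ (∅ : Finset ι))]
  have h0 : χ.χ (((lp0 a m c M hM).K.app (affY k σ (0 : QZ))).tor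
      (fv a m c M hM) univ (∅ : Finset ι)ᶜ) = 0 := by
    refine χ.empty (hFT ∅) fun S _ _ x => ?_
    have hu : ∀ i, IsUnit (MvPolynomial.aeval x.1.1.1 (a i)) := fun i =>
      (x.2 i (mem_univ i)).1 (by simp)
    have h1 : coeff 0 ((lp0 a m c M hM).fser fun l => C (x.1.1.1 l) + x.1.1.2.1 l)
        - (if (0 : ℕ) = M then 1 else 0) = 0 := x.1.2 0
    have hpp : pp (fun i => lpk (a i)) m ∅ x.1.1.2.1 = 1 := Finset.prod_empty
    rw [if_neg (Ne.symm hM), sub_zero, fser_affine a ha m c M hM ∅ x.1.1.1 x.1.1.2.1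
      (fun i hi => absurd hi (Finset.notMem_empty i)), hpp, mul_one,
      coeff0_unit a m c ∅ x.1.1.1 M (om M) 0 x.1.1.2] at h1
    have h2 := isUnit_u0 a m c hc ∅ x.1.1.1 (fun i _ => hu i)
    rw [h1] at h2
    exact (isUnit_zero_iff.1 h2).symm
  rw [h0, add_zero]
  exact Finset.sum_congr rfl fun F _ => χ.iso (hFT F) (top_iso a ha m c hc M hM hω F)

end Pool.Agent.NDM.H32
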